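import Pool.Agent.Lib.MP_293cc0_an.R.Main
import Pool.Agent.Lib.MP_293cc0_an.Final
import Pool.Agent.Lib.MP_293cc0_an.UB.Main

/-!
# MP_293cc0_an: `n - d(n)` is a power of `log n`, up to the exponent

`d(n)` is `Pool.Agent.Lib.MP_293cc0_an.dmin n`, the least `d ≥ 1` such that every metric space with exactly `n`
points embeds isometrically into `ℓ_∞^d`. There are `c > 0` and `C` with
`(log n)^c ≤ n - d(n) ≤ C (log n)^2` for all large `n`.
-/

set_option autoImplicit false

namespace Pool.Agent.Results.MP_293cc0_an.PolylogBounds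

open Pool.Agent.Lib.MP_293cc0_an

theorem result : ∃ c C : ℝ, 0 < c ∧ ∀ᶠ n : ℕ in Filter.atTop,
    (Real.log n) ^ c ≤ (n : ℝ) - dmin n ∧ (n : ℝ) - dmin n ≤ C * (Real.log n) ^ 2 := by
  obtain ⟨k, hk, h⟩ := R.sav_poly
  refine ⟨1 / (2 * k : ℝ), 9 * 2 ^ 76, ?_, ?_⟩
  · have : (0 : ℝ) < k := by exact_mod_cast hk
    positivity
  · filter_upwards [lower_of_sav k hk h, Filter.eventually_ge_atTop 2] with n h1 h2
    exact ⟨h1, UB.upper n h2⟩

end Pool.Agent.Results.MP_293cc0_an.PolylogBounds
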